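import Pool.Agent.K1H34.Had2.Stmts

/-!
# Project PS: the choice of the parameters (S_NUM)
-/

set_option autoImplicit false

namespace Pool.Agent.K1H83.Had2

open Pool.Agent.K1H34.Had2 Filter

/-- the core, in terms of `x = n ^ (1/40)`, `t = x ^ (d/2)` -/
lemma core (x t L v h N Z zd q : ℝ) (hx : 10000 ≤ x) (ht4 : 4 ≤ t) (htx : t ≤ x)
    (hL : L ≤ x) (hN0 : 0 ≤ N) (hN : N ≤ L)
    (hv1 : x ^ 2 ≤ v) (hv2 : v ≤ 9 * x ^ 2) (hh1 : x ^ 28 / 2 ≤ h) (hh2 : h ≤ 3 * x ^ 28)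
    (hZ : (v + 1) * (Z + 1) * h = x ^ 40 - x ^ 36) (hZ1 : x ^ 9 ≤ Z) (hZ2 : Z ≤ 2 * x ^ 10)
    (hzd0 : 0 ≤ zd) (hzd : zd ≤ Z / t ^ 18) (hq1 : Z - zd ≤ q ^ 2) (hq2 : q ^ 2 ≤ Z) :
    v < q ^ 2 ∧ (v + 1) * (q ^ 2 + 1) * h + 30 * N * v * (q ^ 2) ^ 3 ≤ x ^ 40 ∧
      x ^ 40 - x ^ 40 / t ≤ v * q ^ 2 * h := by
  have hx0 : (0 : ℝ) < x := by linarith
  have hxp : ∀ k : ℕ, (0 : ℝ) < x ^ k := fun k => pow_pos hx0 k
  have ht0 : (0 : ℝ) < t := by linarith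
  have hv0 : 0 < v := lt_of_lt_of_le (hxp 2) hv1
  have hh0 : 0 < h := lt_of_lt_of_le (by have := hxp 28; linarith) hh1
  have hZ0 : 0 < Z := lt_of_lt_of_le (hxp 9) hZ1
  have ht18 : (4 : ℝ) ≤ t ^ 17 := by
    calc (4 : ℝ) ≤ 4 ^ 17 := by norm_num
      _ ≤ t ^ 17 := pow_le_pow_left₀ (by norm_num) ht4 17
  have ht18' : 4 * t ≤ t ^ 18 := by
    calc 4 * t ≤ t ^ 17 * t := mul_le_mul_of_nonneg_right ht18 ht0.le
      _ = t ^ 18 := by ring
  have hp18 : (0 : ℝ) < t ^ 18 := pow_pos ht0 18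
  have hzd2 : zd ≤ Z / 2 := by
    refine hzd.trans ?_
    apply div_le_div_of_nonneg_left hZ0.le (by norm_num)
    linarith
  have hqpos : 0 ≤ q ^ 2 := sq_nonneg q
  refine ⟨?_, ?_, ?_⟩
  · -- (a)
    have h1 : x ^ 9 / 2 ≤ q ^ 2 := by linarith
    have h2 : 9 * x ^ 2 < x ^ 9 / 2 := by
      have h3 : x ^ 9 = x ^ 7 * x ^ 2 := by ring
      have h4 : (18 : ℝ) < x ^ 7 := by
        calc (18 : ℝ) < 10000 ^ 7 := by norm_num
          _ ≤ x ^ 7 := pow_le_pow_left₀ (by norm_num) hx 7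
      have h5 := hxp 2
      nlinarith
    linarith
  · -- (b)
    have h1 : (v + 1) * (q ^ 2 + 1) * h ≤ x ^ 40 - x ^ 36 := by
      rw [← hZ]
      apply mul_le_mul_of_nonneg_right _ hh0.le
      apply mul_le_mul_of_nonneg_left _ (by linarith)
      linarith
    have h2 : (q ^ 2) ^ 3 ≤ (2 * x ^ 10) ^ 3 := pow_le_pow_left₀ hqpos (hq2.trans hZ2) 3
    have h3 : 30 * N * v * (q ^ 2) ^ 3 ≤ 30 * x * (9 * x ^ 2) * (2 * x ^ 10) ^ 3 := by
      have a1 : 30 * N ≤ 30 * x := by linarith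
      have a2 : 30 * N * v ≤ 30 * x * (9 * x ^ 2) :=
        mul_le_mul a1 hv2 hv0.le (by positivity)
      exact mul_le_mul a2 h2 (by positivity) (by positivity)
    have h4 : 30 * x * (9 * x ^ 2) * (2 * x ^ 10) ^ 3 ≤ x ^ 36 := by
      have e1 : 30 * x * (9 * x ^ 2) * (2 * x ^ 10) ^ 3 = 2160 * x ^ 33 := by ring
      have e2 : x ^ 36 = x ^ 3 * x ^ 33 := by ring
      rw [e1, e2]
      apply mul_le_mul_of_nonneg_right _ (hxp 33).le
      calc (2160 : ℝ) ≤ 10000 ^ 3 := by norm_num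
        _ ≤ x ^ 3 := pow_le_pow_left₀ (by norm_num) hx 3
    linarith
  · -- (c)
    have h1 : x ^ 40 - x ^ 36 - (v + 1) * h * zd ≤ (v + 1) * (q ^ 2 + 1) * h := by
      have e1 : x ^ 40 - x ^ 36 - (v + 1) * h * zd = (v + 1) * (Z + 1 - zd) * h := by
        rw [← hZ]; ring
      rw [e1]
      apply mul_le_mul_of_nonneg_right _ hh0.le
      apply mul_le_mul_of_nonneg_left _ (by linarith)
      linarith
    have h2 : (v + 1) * h * zd ≤ x ^ 40 / t ^ 18 := by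
      have b1 : (v + 1) * h * zd ≤ (v + 1) * h * (Z / t ^ 18) :=
        mul_le_mul_of_nonneg_left hzd (by positivity)
      have b2 : (v + 1) * h * (Z / t ^ 18) = ((v + 1) * Z * h) / t ^ 18 := by ring
      have b3 : (v + 1) * Z * h ≤ x ^ 40 := by
        have b4 : (v + 1) * Z * h ≤ (v + 1) * (Z + 1) * h := by
          apply mul_le_mul_of_nonneg_right _ hh0.le
          apply mul_le_mul_of_nonneg_left _ (by linarith)
          linarith
        have := hxp 36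
        linarith
      rw [b2] at b1
      exact b1.trans (div_le_div_of_nonneg_right b3 hp18.le)
    have h3 : x ^ 40 / t ^ 18 ≤ x ^ 40 / t / 4 := by
      rw [div_div, mul_comm t 4]
      exact div_le_div_of_nonneg_left (hxp 40).le (by linarith) ht18'
    have h4 : (v + q ^ 2 + 1) * h ≤ 30 * x ^ 30 + 6 * x ^ 38 := by
      have c1 : (v + 1) * h ≤ (10 * x ^ 2) * (3 * x ^ 28) := by
        apply mul_le_mul _ hh2 hh0.le (by positivity)
        have : (1 : ℝ) ≤ x ^ 2 := by nlinarith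
        linarith
      have c2 : q ^ 2 * h ≤ (2 * x ^ 10) * (3 * x ^ 28) :=
        mul_le_mul (hq2.trans hZ2) hh2 hh0.le (by positivity)
      calc (v + q ^ 2 + 1) * h = (v + 1) * h + q ^ 2 * h := by ring
        _ ≤ (10 * x ^ 2) * (3 * x ^ 28) + (2 * x ^ 10) * (3 * x ^ 28) := add_le_add c1 c2
        _ = 30 * x ^ 30 + 6 * x ^ 38 := by ring
    have h5 : x ^ 39 ≤ x ^ 40 / t := by
      rw [le_div_iff₀ ht0]
      calc x ^ 39 * t ≤ x ^ 39 * x := mul_le_mul_of_nonneg_left htx (hxp 39).le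
        _ = x ^ 40 := by ring
    have h6 : x ^ 36 + (30 * x ^ 30 + 6 * x ^ 38) ≤ x ^ 39 / 2 := by
      have d1 : x ^ 36 ≤ x ^ 38 := pow_le_pow_right₀ (by linarith) (by norm_num)
      have d2 : x ^ 30 ≤ x ^ 38 := pow_le_pow_right₀ (by linarith) (by norm_num)
      have d3 : x ^ 39 = x * x ^ 38 := by ring
      have d4 := hxp 38
      rw [d3]
      nlinarith
    have h7 : v * q ^ 2 * h = (v + 1) * (q ^ 2 + 1) * h - (v + q ^ 2 + 1) * h := by ring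
    have h8 : 0 ≤ x ^ 40 / t := by positivity
    rw [h7]
    linarith

/-- the choice of the parameters -/
theorem t_NUM : S_NUM := by
  intro d hd0 hd1 Z₀ hZ₀
  refine ⟨d / 80, by positivity, ?_⟩
  have hlim : Tendsto (fun n : ℕ => (n : ℝ) ^ (1 / 40 : ℝ)) atTop atTop :=
    (tendsto_rpow_atTop (by norm_num : (0 : ℝ) < 1 / 40)).comp tendsto_natCast_atTop_atTop
  have e1 : ∀ᶠ x : ℝ in atTop, 10000 ≤ x := eventually_ge_atTop _
  have e2 : ∀ᶠ x : ℝ in atTop, 40 * Real.log x ≤ x := by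
    have h1 := Real.isLittleO_log_id_atTop.bound (c := 1 / 40) (by norm_num)
    filter_upwards [h1, eventually_ge_atTop (1 : ℝ)] with x hx hx1
    rw [Real.norm_of_nonneg (Real.log_nonneg hx1), id, Real.norm_of_nonneg (by linarith)] at hx
    linarith
  have e3 : ∀ᶠ x : ℝ in atTop, Z₀ ≤ x := eventually_ge_atTop _
  have e4 : ∀ᶠ x : ℝ in atTop, 4 ≤ x ^ (d / 2) :=
    (tendsto_rpow_atTop (by positivity : (0 : ℝ) < d / 2)).eventually_ge_atTop 4
  have hall := hlim.eventually (e1.and (e2.and (e3.and e4)))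
  obtain ⟨n₀, hn₀⟩ := eventually_atTop.mp hall
  refine ⟨n₀, ?_⟩
  intro n hn N q₁ y hN1 hN hq1 hq2 hy1 hy2 h hh1 hh2
  obtain ⟨hx, hlog, hZx, ht4⟩ := hn₀ n hn
  set x : ℝ := (n : ℝ) ^ (1 / 40 : ℝ) with hxdef
  have hn0 : (0 : ℝ) ≤ (n : ℝ) := Nat.cast_nonneg n
  have hx0 : (0 : ℝ) < x := by linarith
  have hn40 : (n : ℝ) = x ^ 40 := by
    rw [hxdef, ← Real.rpow_natCast, ← Real.rpow_mul hn0]
    norm_num
  have hn28 : (n : ℝ) ^ (7 / 10 : ℝ) = x ^ 28 := by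
    rw [hxdef, ← Real.rpow_natCast, ← Real.rpow_mul hn0]
    norm_num
  set t : ℝ := x ^ (d / 2) with htdef
  have ht0 : 0 < t := by linarith
  have hnc : (n : ℝ) ^ (1 - d / 80) = x ^ 40 / t := by
    have hnpos : (0 : ℝ) < (n : ℝ) := by rw [hn40]; positivity
    rw [Real.rpow_sub hnpos, Real.rpow_one, ← hn40, htdef, hxdef, ← Real.rpow_mul hn0]
    congr 2
    ring
  have htx : t ≤ x := by
    rw [htdef]
    calc x ^ (d / 2) ≤ x ^ (1 : ℝ) := Real.rpow_le_rpow_of_exponent_le (by linarith) (by linarith)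
      _ = x := Real.rpow_one x
  have hlogn : Real.log n ≤ x := by
    have h1 : Real.log n = 40 * Real.log x := by
      rw [hn40, Real.log_pow]
      norm_num
    rw [h1]
    exact hlog
  have hxp : ∀ k : ℕ, (0 : ℝ) < x ^ k := fun k => pow_pos hx0 k
  set v : ℝ := (q₁ : ℝ) ^ 2 with hvdef
  rw [hn28] at hy1 hy2
  have hv1 : x ^ 2 ≤ v := pow_le_pow_left₀ hx0.le hq1 2
  have hv2 : v ≤ 9 * x ^ 2 := by
    calc v ≤ (3 * x) ^ 2 := pow_le_pow_left₀ (by positivity) hq2 2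
      _ = 9 * x ^ 2 := by ring
  have hH1 : x ^ 28 / 2 ≤ (h : ℝ) := by linarith
  have h28 : (1 : ℝ) ≤ x ^ 28 := one_le_pow₀ (by linarith)
  have hH2 : (h : ℝ) ≤ 3 * x ^ 28 := by linarith
  have hh0 : (0 : ℝ) < h := by have := hxp 28; linarith
  have hv0 : 0 < v := lt_of_lt_of_le (hxp 2) hv1
  have hvh : 0 < (v + 1) * h := by positivity
  set Z : ℝ := (x ^ 40 - x ^ 36) / ((v + 1) * h) - 1 with hZdef
  have hZeq : (v + 1) * (Z + 1) * h = x ^ 40 - x ^ 36 := by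
    rw [hZdef]
    field_simp
    ring
  have hup : (v + 1) * h ≤ 30 * x ^ 30 := by
    have h1 : (1 : ℝ) ≤ x ^ 2 := one_le_pow₀ (by linarith)
    calc (v + 1) * h ≤ (10 * x ^ 2) * (3 * x ^ 28) :=
          mul_le_mul (by linarith) hH2 hh0.le (by positivity)
      _ = 30 * x ^ 30 := by ring
  have hlo : x ^ 30 / 2 ≤ (v + 1) * h := by
    calc x ^ 30 / 2 = x ^ 2 * (x ^ 28 / 2) := by ring
      _ ≤ (v + 1) * h := mul_le_mul (by linarith) hH1 (by positivity) (by linarith)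
  have hZ1 : x ^ 9 ≤ Z := by
    rw [hZdef, le_sub_iff_add_le, le_div_iff₀ hvh]
    have h1 : x ^ 9 + 1 ≤ 2 * x ^ 9 := by
      have : (1 : ℝ) ≤ x ^ 9 := one_le_pow₀ (by linarith)
      linarith
    calc (x ^ 9 + 1) * ((v + 1) * h) ≤ (2 * x ^ 9) * (30 * x ^ 30) :=
          mul_le_mul h1 hup hvh.le (by positivity)
      _ = 60 * x ^ 39 := by ring
      _ ≤ x ^ 40 - x ^ 36 := by
        have d1 : x ^ 36 ≤ x ^ 39 := pow_le_pow_right₀ (by linarith) (by norm_num)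
        have d3 : x ^ 40 = x * x ^ 39 := by ring
        have d4 := hxp 39
        rw [d3]
        nlinarith
  have hZ2 : Z ≤ 2 * x ^ 10 := by
    rw [hZdef, sub_le_iff_le_add, div_le_iff₀ hvh]
    calc x ^ 40 - x ^ 36 ≤ x ^ 40 := by have := hxp 36; linarith
      _ = (2 * x ^ 10) * (x ^ 30 / 2) := by ring
      _ ≤ (2 * x ^ 10) * ((v + 1) * h) := mul_le_mul_of_nonneg_left hlo (by positivity)
      _ ≤ (2 * x ^ 10 + 1) * ((v + 1) * h) := by
        apply mul_le_mul_of_nonneg_right _ hvh.le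
        linarith
  have hZ0 : 0 < Z := lt_of_lt_of_le (hxp 9) hZ1
  have hZZ : Z₀ ≤ Z := by
    refine hZx.trans (le_trans ?_ hZ1)
    calc x = x ^ 1 := (pow_one x).symm
      _ ≤ x ^ 9 := pow_le_pow_right₀ (by linarith) (by norm_num)
  have hzd : Z ^ (1 - d) ≤ Z / t ^ 18 := by
    rw [Real.rpow_sub hZ0, Real.rpow_one]
    apply div_le_div_of_nonneg_left hZ0.le (by positivity)
    have h1 : t ^ 18 = (x ^ 9) ^ d := by
      rw [htdef, ← Real.rpow_natCast (x ^ (d / 2)), ← Real.rpow_mul hx0.le,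
        ← Real.rpow_natCast x 9, ← Real.rpow_mul hx0.le]
      congr 1
      push_cast
      ring
    rw [h1]
    exact Real.rpow_le_rpow (hxp 9).le hZ1 hd0.le
  refine ⟨Z, hZZ, ?_⟩
  intro q hqa hqb
  obtain ⟨c1, c2, c3⟩ := core x t (Real.log n) v h N Z (Z ^ (1 - d)) q hx ht4 htx hlogn
    (by positivity) hN hv1 hv2 hH1 hH2 hZeq hZ1 hZ2 (Real.rpow_nonneg hZ0.le _) hzd hqa hqb
  refine ⟨?_, ?_, ?_⟩
  · have : (q₁ : ℝ) ^ 2 < (q : ℝ) ^ 2 := c1
    have h2 : (q₁ : ℝ) < q := lt_of_pow_lt_pow_left₀ 2 (Nat.cast_nonneg q) this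
    exact_mod_cast h2
  · have h1 : (((q₁ ^ 2 + 1) * (q ^ 2 + 1) * h + 30 * N * q₁ ^ 2 * (q ^ 2) ^ 3 : ℕ) : ℝ) ≤
        (n : ℝ) := by
      push_cast
      rw [hn40]
      exact c2
    exact_mod_cast h1
  · rw [hnc, hn40]
    exact c3

end Pool.Agent.K1H83.Had2
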